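import Pool.Agent.MP_c1891a_nt.G43.Spec
import Pool.Agent.MP_c1891a_nt.H16.Prim

/-
Gauss's lemma for the factors of an integral Laurent polynomial in any number of variables.
-/

namespace Pool.Agent.MP_c1891a_nt.G43

open Finset H43

theorem primN_gauss {Λ Γ : Type} [AddCommGroup Λ] [UniqueSums Λ] [LinearOrderedCommGroupWithZero Γ]
    (v : Valuation ℂ Γ) (P S : AddMonoidAlgebra ℂ Λ) (μ ν : Λ) :
    ∃ m, v (P.coeff μ) * v (S.coeff ν) ≤ v ((P * S).coeff m) := by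
  classical
  by_cases hμ : P.coeff μ = 0
  · exact ⟨0, by simp [hμ]⟩
  by_cases hν : S.coeff ν = 0
  · exact ⟨0, by simp [hν]⟩
  have hμ' := Finsupp.mem_support_iff.2 hμ
  have hν' := Finsupp.mem_support_iff.2 hν
  obtain ⟨a, ha, hA⟩ := exists_max_image P.coeff.support (fun i => v (P.coeff i)) ⟨μ, hμ'⟩
  obtain ⟨b, hb, hB⟩ := exists_max_image S.coeff.support (fun i => v (S.coeff i)) ⟨ν, hν'⟩
  obtain ⟨a0, ha0, b0, hb0, hu⟩ := UniqueSums.uniqueAdd_of_nonempty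
    (A := P.coeff.support.filter fun i => v (P.coeff i) = v (P.coeff a))
    (B := S.coeff.support.filter fun i => v (S.coeff i) = v (S.coeff b))
    ⟨a, mem_filter.2 ⟨ha, rfl⟩⟩ ⟨b, mem_filter.2 ⟨hb, rfl⟩⟩
  obtain ⟨ha1, ha2⟩ := mem_filter.1 ha0
  obtain ⟨hb1, hb2⟩ := mem_filter.1 hb0
  have pa : 0 < v (P.coeff a) := zero_lt_iff.2 (v.ne_zero_iff.2 (Finsupp.mem_support_iff.1 ha))
  have pb : 0 < v (S.coeff b) := zero_lt_iff.2 (v.ne_zero_iff.2 (Finsupp.mem_support_iff.1 hb))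
  refine ⟨a0 + b0, (mul_le_mul' (hA μ hμ') (hB ν hν')).trans (le_of_eq (Eq.symm ?_))⟩
  have e : (P * S).coeff (a0 + b0) = ∑ p ∈ P.coeff.support ×ˢ S.coeff.support,
      if p.1 + p.2 = a0 + b0 then P.coeff p.1 * S.coeff p.2 else 0 := by
    rw [AddMonoidAlgebra.coeff_mul, sum_product]; rfl
  have hm : (a0, b0) ∈ P.coeff.support ×ˢ S.coeff.support := mem_product.2 ⟨ha1, hb1⟩
  rw [e, ← add_sum_erase _ _ hm, if_pos rfl, v.map_add_eq_of_lt_left, map_mul, ha2, hb2]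
  rw [map_mul, ha2, hb2]
  refine v.map_sum_lt' (mul_pos pa pb) fun p hp => ?_
  obtain ⟨hne, hp'⟩ := mem_erase.1 hp
  obtain ⟨p1, p2⟩ := mem_product.1 hp'
  split_ifs with h
  · rw [map_mul]
    rcases (hA _ p1).lt_or_eq with h1 | h1
    · exact mul_lt_mul_of_lt_of_le_of_nonneg_of_pos h1 (hB _ p2) zero_le pb
    · rcases (hB _ p2).lt_or_eq with h2 | h2
      · rw [h1]; exact mul_lt_mul_of_pos_left h2 pa
      · have := hu (mem_filter.2 ⟨p1, h1⟩) (mem_filter.2 ⟨p2, h2⟩) h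
        exact absurd (Prod.ext this.1 this.2) hne
  · rw [map_zero]; exact mul_pos pa pb

theorem sPrimN : SPrimN := by
  intro d Q S h0 hI
  have hv : ∀ (O : ValuationSubring ℂ) μ ν,
      O.valuation (Q.coeff μ) * O.valuation (S.coeff ν) ≤ 1 := fun O μ ν => by
    obtain ⟨m, hm⟩ := primN_gauss O.valuation Q S μ ν
    exact hm.trans (prim_le O (hI m))
  have hQ : Q.coeff ≠ 0 := fun h =>
    left_ne_zero_of_mul h0 (AddMonoidAlgebra.coeff_injective (by simpa using h))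
  have hS : S.coeff ≠ 0 := fun h =>
    right_ne_zero_of_mul h0 (AddMonoidAlgebra.coeff_injective (by simpa using h))
  obtain ⟨μ0, hμ0⟩ := Finsupp.support_nonempty_iff.2 hQ
  obtain ⟨ν0, hν0⟩ := Finsupp.support_nonempty_iff.2 hS
  have hs0 := Finsupp.mem_support_iff.1 hν0
  obtain ⟨c, hc0, h1, h2⟩ := prim_content Q.coeff.support (fun μ => Q.coeff μ * S.coeff ν0)
    (fun μ _ => (IsIntegral.tower_top (A := ℚ)
      (prim_int fun O => (O.valuation.map_mul _ _).trans_le (hv O μ ν0))).isAlgebraic) hμ0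
    (mul_ne_zero (Finsupp.mem_support_iff.1 hμ0) hs0)
  have e : ∀ μ, c * S.coeff ν0 * Q.coeff μ = c * (Q.coeff μ * S.coeff ν0) := fun μ => by ring
  have hc := mul_ne_zero hc0 hs0
  refine ⟨c * S.coeff ν0, hc, fun μ => ?_, fun ν => prim_int fun O => ?_⟩
  · by_cases h : μ ∈ Q.coeff.support
    · exact e μ ▸ h1 μ h
    · rw [Finsupp.notMem_support_iff.1 h, mul_zero]; exact isIntegral_zero
  · obtain ⟨μ, -, hμ⟩ := h2 O
    rw [← e] at hμ
    calc O.valuation ((c * S.coeff ν0)⁻¹ * S.coeff ν)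
        ≤ O.valuation (c * S.coeff ν0 * Q.coeff μ) * O.valuation ((c * S.coeff ν0)⁻¹ * S.coeff ν) :=
          le_mul_of_one_le_left' hμ
      _ = O.valuation (Q.coeff μ) * O.valuation (S.coeff ν) := by
          rw [← map_mul, ← map_mul, mul_mul_mul_comm, mul_inv_cancel₀ hc, one_mul]
      _ ≤ 1 := hv O μ ν

end Pool.Agent.MP_c1891a_nt.G43
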